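import Mathlib

set_option autoImplicit false

/-!
# Growth of integer polynomials: prime values are large
-/

namespace Pool.Agent.X41.Harv

open Polynomial Filter

/-- a nonconstant integer polynomial is eventually larger than the square root in absolute value -/
lemma eval_sq_gt (f : ℤ[X]) (hdeg : 0 < f.natDegree) :
    ∀ᶠ n : ℕ in atTop, (n : ℤ) < (f.eval (n : ℤ)) ^ 2 := by
  have hf : f ≠ 0 := by
    rintro rfl
    simp at hdeg
  set g : ℝ[X] := (f.map (Int.castRingHom ℝ)) ^ 2 - X with hg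
  have hmapdeg : (f.map (Int.castRingHom ℝ)).natDegree = f.natDegree :=
    natDegree_map_eq_of_injective (Int.cast_injective) f
  have hmaplead : (f.map (Int.castRingHom ℝ)).leadingCoeff = (f.leadingCoeff : ℝ) := by
    rw [leadingCoeff_map_of_injective (Int.cast_injective)]
    rfl
  have hsqdeg : ((f.map (Int.castRingHom ℝ)) ^ 2).natDegree = 2 * f.natDegree := by
    rw [natDegree_pow, hmapdeg]
  have hlt : (X : ℝ[X]).degree < ((f.map (Int.castRingHom ℝ)) ^ 2).degree := by
    apply degree_lt_degree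
    rw [natDegree_X, hsqdeg]
    omega
  have hgl : g.leadingCoeff = (f.leadingCoeff : ℝ) ^ 2 := by
    rw [hg, leadingCoeff_sub_of_degree_lt hlt, leadingCoeff_pow, hmaplead]
  have hgd : g.degree = ((f.map (Int.castRingHom ℝ)) ^ 2).degree := degree_sub_eq_left_of_degree_lt hlt
  have hgpos : 0 < g.degree := by
    rw [hgd]
    apply natDegree_pos_iff_degree_pos.1
    rw [hsqdeg]
    omega
  have hlead0 : 0 ≤ g.leadingCoeff := by
    rw [hgl]
    positivity
  have htend := Polynomial.tendsto_atTop_of_leadingCoeff_nonneg g hgpos hlead0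
  have h2 := (htend.comp tendsto_natCast_atTop_atTop).eventually_gt_atTop 0
  filter_upwards [h2] with n hn
  have h3 : g.eval (n : ℝ) = ((f.eval (n : ℤ) : ℤ) : ℝ) ^ 2 - n := by
    rw [hg, eval_sub, eval_pow, eval_X]
    congr 2
    rw [show (n : ℝ) = (Int.castRingHom ℝ) (n : ℤ) by simp, eval_map, eval₂_at_apply]
    rfl
  rw [Function.comp_apply, h3] at hn
  have h4 : (n : ℝ) < ((f.eval (n : ℤ) : ℤ) : ℝ) ^ 2 := by linarith
  exact_mod_cast h4

/-- for large `n`: if `|f (n)|` is prime, then all its prime factors are larger than `n ^ (1 / r)` -/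
lemma rough_of_prime (f : ℤ[X]) (hdeg : 0 < f.natDegree) (r : ℕ) (hr : 2 ≤ r) :
    ∀ᶠ n : ℕ in atTop, (f.eval (n : ℤ)).natAbs.Prime → ∀ p : ℕ, p.Prime →
      (p : ℤ) ∣ f.eval (n : ℤ) → (n : ℝ) ^ (1 / (r : ℝ)) < (p : ℝ) := by
  filter_upwards [eval_sq_gt f hdeg, eventually_ge_atTop 1] with n hn hn1 hpr p hp hd
  have h1 : p = (f.eval (n : ℤ)).natAbs := by
    apply (Nat.prime_dvd_prime_iff_eq hp hpr).1
    exact Int.natCast_dvd.1 hd
  have hn1r : (1 : ℝ) ≤ n := by exact_mod_cast hn1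
  have h2 : (n : ℝ) < (p : ℝ) ^ 2 := by
    have h3 : ((f.eval (n : ℤ)).natAbs : ℤ) ^ 2 = (f.eval (n : ℤ)) ^ 2 := Int.natAbs_sq _
    rw [← h1] at h3
    rw [← h3] at hn
    exact_mod_cast hn
  have hr0 : (0 : ℝ) < r := by
    have : 0 < r := by omega
    exact_mod_cast this
  have hrr : (2 : ℝ) ≤ r := by exact_mod_cast hr
  have h5 : (n : ℝ) ^ (1 / (r : ℝ)) ≤ (n : ℝ) ^ (1 / (2 : ℝ)) := by
    apply Real.rpow_le_rpow_of_exponent_le hn1r
    exact one_div_le_one_div_of_le (by norm_num) hrr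
  have h6 : (n : ℝ) ^ (1 / (2 : ℝ)) < p := by
    rw [← Real.sqrt_eq_rpow]
    exact (Real.sqrt_lt' (by
      have := hp.pos
      exact_mod_cast this)).2 h2
  linarith

end Pool.Agent.X41.Harv
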